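import Pool.Agent.KS6_83.PT.F

set_option autoImplicit false

open Complex Metric Set Polynomial
open scoped ComplexConjugate

namespace Pool.Agent.Results.MP_a1a577_an.AllWorst

/-- The `n`-dimensional complex Hilbert space `H_n`. -/
abbrev H (n : ℕ) : Type := EuclideanSpace ℂ (Fin n)

/-- `A(p)`: the contractions `T` on `H_n` with `p(T) = 0`. -/
def A (n : ℕ) (p : ℂ[X]) : Set (H n →L[ℂ] H n) := {T | ‖T‖ ≤ 1 ∧ aeval T p = 0}

/-- The `k`-th Taylor coefficient of `f` at `0`. -/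
noncomputable def taylorCoeff (f : ℂ → ℂ) (k : ℕ) : ℂ := iteratedDeriv k f 0 / (k.factorial : ℂ)

/-- Functional calculus for `f` holomorphic on the unit disc: the norm convergent Taylor series
`f(T) = ∑ (f^(k)(0)/k!) T^k` (convergence is part of the result below). -/
noncomputable def funCalc {n : ℕ} (f : ℂ → ℂ) (T : H n →L[ℂ] H n) : H n →L[ℂ] H n :=
  ∑' k : ℕ, taylorCoeff f k • T ^ k

/-- The set of the numbers `‖f(T)‖`, `T ∈ A(p)`. -/
def normSet (n : ℕ) (p : ℂ[X]) (f : ℂ → ℂ) : Set ℝ := {x | ∃ T ∈ A n p, x = ‖funCalc f T‖}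

/-- `C(p, f)`, the largest value of `‖f(T)‖`, `T ∈ A(p)`. -/
noncomputable def C (n : ℕ) (p : ℂ[X]) (f : ℂ → ℂ) : ℝ := sSup (normSet n p f)

/-- The polynomials of degree `n` all of whose roots lie in `K`; `P_{n,r}` is the case
`K = {|z| ≤ r}`. -/
def P (n : ℕ) (K : Set ℂ) : Set ℂ[X] := {p | p.degree = n ∧ ∀ z : ℂ, p.eval z = 0 → z ∈ K}

/-- `p` is a worst polynomial for `f`: a maximum point of `C(·, f)` over `P n K`. -/
def IsWorst (n : ℕ) (K : Set ℂ) (f : ℂ → ℂ) (p : ℂ[X]) : Prop :=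
  p ∈ P n K ∧ ∀ q ∈ P n K, C n q f ≤ C n p f

/-- The finite Blaschke product with zeros `s` (with multiplicity); it is `1` for `s = 0`. -/
noncomputable def blaschke (s : Multiset ℂ) (z : ℂ) : ℂ := (s.map (fun b => (z - b) / (1 - conj b * z))).prod

/-- On the disc, `f` is the constant `c` times a finite Blaschke product of degree `< n`. -/
def IsScaledBlaschke (n : ℕ) (f : ℂ → ℂ) (c : ℂ) : Prop :=
  ∃ s : Multiset ℂ, s.card < n ∧ (∀ b ∈ s, ‖b‖ < 1) ∧ ∀ z ∈ ball (0 : ℂ) 1, f z = c * blaschke s z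

/-- `K` is hyperbolically convex: its image in the Beltrami-Klein model (`w ↦ 2w/(1+|w|^2)`, here
with the harmless factor `2` left out) is convex. -/
def HypConvex (K : Set ℂ) : Prop := Convex ℝ ((fun w : ℂ => w / ((1 + ‖w‖ ^ 2 : ℝ) : ℂ)) '' K)

/-- The explicit upper triangular Toeplitz operator `T_a` on `ℂ^n`: diagonal entries `a`, and entry
`(1 - |a|^2) (-conj a)^(j-i-1)` in row `i` and column `j` for `i < j`. -/
noncomputable def Top (n : ℕ) (a : ℂ) : H n →L[ℂ] H n :=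
  Matrix.toEuclideanCLM (𝕜 := ℂ) (Matrix.of fun i j : Fin n => if i = j then a else if i < j then
    ((1 - ‖a‖ ^ 2 : ℝ) : ℂ) * (-(conj a)) ^ ((j : ℕ) - (i : ℕ) - 1) else 0)

/-- `p` is a nonzero multiple of `(z - a)^n` for a point `a ∈ S`. -/
def SingleRoot (n : ℕ) (S : Set ℂ) (p : ℂ[X]) : Prop :=
  ∃ c a : ℂ, c ≠ 0 ∧ a ∈ S ∧ p = Polynomial.C c * (X - Polynomial.C a) ^ n

/-- The points `a` of the circle `|a| = r` at which `‖f(T_a)‖` is largest. -/
def maxPoints (n : ℕ) (r : ℝ) (f : ℂ → ℂ) : Set ℂ :=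
  {a | ‖a‖ = r ∧ ∀ b : ℂ, ‖b‖ = r → ‖funCalc f (Top n b)‖ ≤ ‖funCalc f (Top n a)‖}

/-- `f` is holomorphic on the unit disc. -/
def Holo (f : ℂ → ℂ) : Prop := DifferentiableOn ℂ f (ball 0 1)

/-- `f` is not a constant times a finite Blaschke product of degree `< n`. -/
def NotScaled (n : ℕ) (f : ℂ → ℂ) : Prop := ¬ ∃ c : ℂ, IsScaledBlaschke n f c

/-- `K` is a nonempty compact hyperbolically convex subset of the unit disc. -/
def Admissible (K : Set ℂ) : Prop := IsCompact K ∧ K.Nonempty ∧ K ⊆ ball 0 1 ∧ HypConvex K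

/-- For every `p ∈ P n K` the functional calculus of `f` converges absolutely on `A(p)`, and the
maximum `C(p, f)` is attained. -/
def WellDefined (n : ℕ) (K : Set ℂ) (f : ℂ → ℂ) : Prop :=
  ∀ p ∈ P n K, (∀ T ∈ A n p, Summable fun k : ℕ => ‖taylorCoeff f k • T ^ k‖) ∧
    IsGreatest (normSet n p f) (C n p f)

/-- If `f = c B` with `B` a finite Blaschke product of degree `< n`, then `C(p, f) = |c|` for every
`p ∈ P n K`, so that every `p ∈ P n K` is a worst polynomial. -/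
def BlaschkeCase (n : ℕ) (K : Set ℂ) (f : ℂ → ℂ) : Prop :=
  ∀ c : ℂ, IsScaledBlaschke n f c → ∀ p ∈ P n K, C n p f = ‖c‖ ∧ IsWorst n K f p

/-- There is a worst polynomial, and all of them are of the form `c (z - a)^n` with `a` in the
boundary of `K`. -/
def AllSingleRoot (n : ℕ) (K : Set ℂ) (f : ℂ → ℂ) : Prop :=
  (∃ p, IsWorst n K f p) ∧ ∀ p, IsWorst n K f p → SingleRoot n (frontier K) p

/-- `S` is not empty, and the worst polynomials are exactly the `c (z - a)^n`, `c ≠ 0`, `a ∈ S`. -/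
def WorstAre (n : ℕ) (K : Set ℂ) (f : ℂ → ℂ) (S : Set ℂ) : Prop :=
  S.Nonempty ∧ ∀ p, IsWorst n K f p ↔ SingleRoot n S p

open Pool.Agent.KS6_83.PT Pool.Agent.Helper654.Ptak in
/-- **All worst polynomials in Ptak's maximum problem.** First the general statement, for compact
hyperbolically convex sets of roots; then the discs `|z| ≤ r` of the problem, where the worst
polynomials are determined completely. -/
theorem result (n : ℕ) (hn : 1 ≤ n) :
    (∀ (K : Set ℂ) (f : ℂ → ℂ), Admissible K → Holo f →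
      WellDefined n K f ∧ BlaschkeCase n K f ∧ (NotScaled n f → AllSingleRoot n K f)) ∧
    (∀ r : ℝ, 0 < r → r < 1 → Admissible (closedBall 0 r) ∧
      (∀ f : ℂ → ℂ, Holo f → NotScaled n f → WorstAre n (closedBall 0 r) f (maxPoints n r f)) ∧
      (∀ m : ℕ, n ≤ m → WorstAre n (closedBall 0 r) (fun z => z ^ m) (sphere 0 r))) := by
  obtain ⟨m, rfl⟩ : ∃ m, n = m + 1 := ⟨n - 1, by omega⟩
  -- general facts on a set of roots inside a smaller disc
  have hrad : ∀ K : Set ℂ, IsCompact K → K.Nonempty → K ⊆ ball 0 1 → ∃ r : ℝ, 0 < r ∧ r < 1 ∧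
      K ⊆ closedBall 0 r := by
    intro K hK hne hKD
    obtain ⟨x, hx, hmax⟩ := hK.exists_isMaxOn hne (f := fun w : ℂ => ‖w‖) continuous_norm.continuousOn
    have hx1 : ‖x‖ < 1 := mem_ball_zero_iff.mp (hKD hx)
    refine ⟨(1 + ‖x‖) / 2, by positivity, by linarith, ?_⟩
    intro w hw
    have : ‖w‖ ≤ ‖x‖ := hmax hw
    rw [mem_closedBall_zero_iff]
    linarith
  have hfc : ∀ (f : ℂ → ℂ) (T : H (m + 1) →L[ℂ] H (m + 1)), funCalc f T = fc f T := fun f T => rfl
  have hgr : ∀ {r : ℝ}, 0 < r → r < 1 → ∀ {f : ℂ → ℂ}, DifferentiableOn ℂ f (ball 0 1) →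
      ∀ {z : Fin (m + 1) → ℂ}, (∀ j, ‖z j‖ ≤ r) → ∀ (D : Model r z) {c : ℂ}, c ≠ 0 →
      IsGreatest (normSet (m + 1) (Polynomial.C c * PZ z) f) ‖fc f D.T‖ := by
    intro r hr0 hr1 f hf z hz D c hc
    exact isGreatest hr0 hr1 hf hz D hc
  have hCeq : ∀ {r : ℝ}, 0 < r → r < 1 → ∀ {f : ℂ → ℂ}, DifferentiableOn ℂ f (ball 0 1) →
      ∀ {z : Fin (m + 1) → ℂ}, (∀ j, ‖z j‖ ≤ r) → ∀ (D : Model r z) {c : ℂ}, c ≠ 0 →
      C (m + 1) (Polynomial.C c * PZ z) f = ‖fc f D.T‖ := by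
    intro r hr0 hr1 f hf z hz D c hc
    exact (hgr hr0 hr1 hf hz D hc).csSup_eq
  have hmemP : ∀ (K : Set ℂ) (z : Fin (m + 1) → ℂ), (∀ k, z k ∈ K) → PZ z ∈ P (m + 1) K := by
    intro K z hz
    refine ⟨PZ_degree z, ?_⟩
    intro w hw
    obtain ⟨j, rfl⟩ := PZ_root_iff z w hw
    exact hz j
  have hsc : ∀ (f : ℂ → ℂ), Pool.Agent.KS6_83.PT.IsScaledBlaschke (m + 1) f →
      ∃ c, IsScaledBlaschke (m + 1) f c := by
    rintro f ⟨c, s, h1, h2, h3⟩
    exact ⟨c, s, h1, h2, h3⟩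
  have hone : ∀ p : ℂ[X], p = Polynomial.C (1 : ℂ) * p := by intro p; rw [C_1, one_mul]
  -- the general statement
  have general : ∀ K : Set ℂ, IsCompact K → K.Nonempty → K ⊆ ball 0 1 → HypConvex K →
      ∀ f : ℂ → ℂ, DifferentiableOn ℂ f (ball 0 1) →
      (∀ p ∈ P (m + 1) K, (∀ T ∈ A (m + 1) p, Summable fun k : ℕ => ‖taylorCoeff f k • T ^ k‖) ∧
        IsGreatest (normSet (m + 1) p f) (C (m + 1) p f)) ∧
      (∀ c : ℂ, IsScaledBlaschke (m + 1) f c → ∀ p ∈ P (m + 1) K, C (m + 1) p f = ‖c‖ ∧ IsWorst (m + 1) K f p) ∧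
      ((¬ ∃ c : ℂ, IsScaledBlaschke (m + 1) f c) →
        (∃ a ∈ frontier K, IsWorst (m + 1) K f ((X - Polynomial.C a) ^ (m + 1))) ∧
        ∀ p, IsWorst (m + 1) K f p → SingleRoot (m + 1) (frontier K) p) := by
    intro K hK hne hKD hconv f hf
    obtain ⟨r, hr0, hr1, hKr⟩ := hrad K hK hne hKD
    have hr : ∀ w ∈ K, ‖w‖ ≤ r := fun w hw => mem_closedBall_zero_iff.mp (hKr hw)
    obtain ⟨s, hrs, _, K', hK'⟩ := tay_bound hr0 hr1 hf
    refine ⟨?_, ?_, ?_⟩
    · intro p hp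
      refine ⟨?_, ?_⟩
      · intro T hT
        have hb := bd_summable (n := m + 1) hr0 hrs hK'
        have hle : ∀ k, ‖taylorCoeff f k • T ^ k‖ ≤ ‖tay f k‖ * bd (m + 1) r k := by
          intro k
          have h1 := cls_pow_bound hr0 hr1 T hT.1 p (fun z hz => hr _ (hp.2 z hz)) hT.2 k
          have h2 : ‖taylorCoeff f k • T ^ k‖ ≤ ‖taylorCoeff f k‖ * ‖T ^ k‖ := norm_smul_le (taylorCoeff f k) (T ^ k)
          exact h2.trans (mul_le_mul_of_nonneg_left h1 (norm_nonneg _))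
        exact Summable.of_nonneg_of_le (fun k => norm_nonneg _) hle hb
      · obtain ⟨c, z, hc, hz, rfl⟩ := exists_PZ hp.1 hp.2
        have hz' : ∀ j, ‖z j‖ ≤ r := fun j => hr _ (hz j)
        obtain ⟨D⟩ := exists_model hr0 hr1 z hz'
        rw [hCeq hr0 hr1 hf hz' D hc]
        exact hgr hr0 hr1 hf hz' D hc
    · rintro c ⟨t, ht1, ht2, ht3⟩
      have hval : ∀ p ∈ P (m + 1) K, C (m + 1) p f = ‖c‖ := by
        intro p hp
        obtain ⟨c', z, hc', hz, rfl⟩ := exists_PZ hp.1 hp.2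
        have hz' : ∀ j, ‖z j‖ ≤ r := fun j => hr _ (hz j)
        obtain ⟨D⟩ := exists_model hr0 hr1 z hz'
        rw [hCeq hr0 hr1 hf hz' D hc']
        exact D.scaled hr0 hr1 hf hz' ht1 ht2 ht3
      intro p hp
      exact ⟨hval p hp, hp, fun q hq => by rw [hval p hp, hval q hq]⟩
    · intro hnot
      have huniq : ∀ p, IsWorst (m + 1) K f p → SingleRoot (m + 1) (frontier K) p := by
        intro p hp
        obtain ⟨c, z, hc, hz, hpz⟩ := exists_PZ hp.1.1 hp.1.2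
        have hz' : ∀ j, ‖z j‖ ≤ r := fun j => hr _ (hz j)
        obtain ⟨D⟩ := exists_model hr0 hr1 z hz'
        rcases dichotomy hr0 hr1 hf hKr hconv hK.isClosed hz D (by
          intro z' hz'' D'
          have h1 := hp.2 (PZ z') (hmemP K z' hz'')
          rw [hpz, hCeq hr0 hr1 hf hz' D hc, hone (PZ z'),
            hCeq hr0 hr1 hf (fun j => hr _ (hz'' j)) D' one_ne_zero] at h1
          exact h1) with h | ⟨a, ha, hza⟩
        · exact absurd (hsc f h) hnot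
        · refine ⟨c, a, hc, ha, ?_⟩
          have h2 : z = fun _ => a := funext hza
          rw [hpz, h2, PZ_const]
      refine ⟨?_, huniq⟩
      obtain ⟨z, hz, hmax⟩ := exists_maximiser (m := m) hr0 hr1 hf hKr hK hne
      have hz' : ∀ j, ‖z j‖ ≤ r := fun j => hr _ (hz j)
      obtain ⟨D⟩ := exists_model hr0 hr1 z hz'
      have hw : IsWorst (m + 1) K f (PZ z) := by
        refine ⟨hmemP K z hz, ?_⟩
        intro q hq
        obtain ⟨c', z', hc', hz'', rfl⟩ := exists_PZ hq.1 hq.2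
        have hz3 : ∀ j, ‖z' j‖ ≤ r := fun j => hr _ (hz'' j)
        obtain ⟨D'⟩ := exists_model hr0 hr1 z' hz3
        rw [hCeq hr0 hr1 hf hz3 D' hc', hone (PZ z), hCeq hr0 hr1 hf hz' D one_ne_zero]
        exact hmax D z' hz'' D'
      obtain ⟨c, a, hc, ha, hpa⟩ := huniq _ hw
      have h1 : PZ z = (X - Polynomial.C a) ^ (m + 1) := by
        have h2 := congrArg leadingCoeff hpa
        rw [(PZ_monic z).leadingCoeff, leadingCoeff_mul, leadingCoeff_C,
          ((monic_X_sub_C a).pow (m + 1)).leadingCoeff, mul_one] at h2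
        rw [hpa, ← h2, C_1, one_mul]
      exact ⟨a, ha, by rw [← h1]; exact hw⟩
  have general' : ∀ (K : Set ℂ) (f : ℂ → ℂ), Admissible K → Holo f →
      WellDefined (m + 1) K f ∧ BlaschkeCase (m + 1) K f ∧ (NotScaled (m + 1) f → AllSingleRoot (m + 1) K f) := by
    rintro K f ⟨h1, h2, h3, h4⟩ hf
    obtain ⟨g1, g2, g3⟩ := general K h1 h2 h3 h4 f hf
    refine ⟨g1, g2, ?_⟩
    intro hnot
    obtain ⟨⟨a, _, ha⟩, h5⟩ := g3 hnot
    exact ⟨⟨_, ha⟩, h5⟩
  refine ⟨general', ?_⟩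
  intro r hr0 hr1
  have hHC : HypConvex (closedBall 0 r) := convex_kl_closedBall hr0 hr1
  have hKD : closedBall (0 : ℂ) r ⊆ ball 0 1 := closedBall_subset_ball hr1
  have hKne : (closedBall (0 : ℂ) r).Nonempty := ⟨0, mem_closedBall_self hr0.le⟩
  have hKc : IsCompact (closedBall (0 : ℂ) r) := isCompact_closedBall 0 r
  have hfrontier : frontier (closedBall (0 : ℂ) r) = sphere 0 r := frontier_closedBall 0 hr0.ne'
  -- value at the powers
  have hCa : ∀ {f : ℂ → ℂ}, DifferentiableOn ℂ f (ball 0 1) → ∀ {a c : ℂ}, ‖a‖ ≤ r → c ≠ 0 →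
      C (m + 1) (Polynomial.C c * (X - Polynomial.C a) ^ (m + 1)) f = ‖fc f (Uop (m + 1) a)‖ := by
    intro f hf a c ha hc
    obtain ⟨D⟩ := exists_model (m := m) hr0 hr1 (fun _ => a) (fun _ => ha)
    rw [← PZ_const, hCeq hr0 hr1 hf (fun _ => ha) D hc, model_const hr0 hr1 hf ha D]
  have hmemPa : ∀ {a c : ℂ}, ‖a‖ = r → c ≠ 0 →
      Polynomial.C c * (X - Polynomial.C a) ^ (m + 1) ∈ P (m + 1) (closedBall 0 r) := by
    intro a c ha hc
    refine ⟨?_, ?_⟩
    · rw [degree_mul, degree_C hc, zero_add, degree_pow, degree_X_sub_C]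
      simp
    · intro z hz
      rw [eval_mul, eval_C, eval_pow, eval_sub, eval_X, eval_C] at hz
      rcases mul_eq_zero.mp hz with h | h
      · exact absurd h hc
      · have h1 : z = a := by
          have := pow_eq_zero_iff (n := m + 1) (by omega) |>.mp h
          linear_combination this
        rw [h1, mem_closedBall_zero_iff, ha]
  have disc : ∀ f : ℂ → ℂ, DifferentiableOn ℂ f (ball 0 1) → (¬ ∃ c : ℂ, IsScaledBlaschke (m + 1) f c) →
        (maxPoints (m + 1) r f).Nonempty ∧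
        ∀ p, IsWorst (m + 1) (closedBall 0 r) f p ↔ SingleRoot (m + 1) (maxPoints (m + 1) r f) p := by
    intro f hf hnot
    obtain ⟨⟨a, ha, hwa⟩, huniq⟩ := (general _ hKc hKne hKD hHC f hf).2.2 hnot
    rw [hfrontier] at ha huniq
    have ha' : ‖a‖ = r := by simpa using ha
    rw [hone ((X - Polynomial.C a) ^ (m + 1))] at hwa
    have hmaxpt : ∀ {b c : ℂ}, ‖b‖ = r → c ≠ 0 →
        IsWorst (m + 1) (closedBall 0 r) f (Polynomial.C c * (X - Polynomial.C b) ^ (m + 1)) →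
        b ∈ maxPoints (m + 1) r f := by
      intro b c hb hc hw
      refine ⟨hb, ?_⟩
      intro b' hb'
      have h1 := hw.2 _ (hmemPa hb' one_ne_zero)
      rw [hCa hf hb'.le one_ne_zero, hCa hf hb.le hc] at h1
      exact h1
    refine ⟨⟨a, hmaxpt ha' one_ne_zero hwa⟩, ?_⟩
    intro p
    constructor
    · intro hp
      obtain ⟨c, b, hc, hb, rfl⟩ := huniq p hp
      have hb' : ‖b‖ = r := by simpa using hb
      exact ⟨c, b, hc, hmaxpt hb' hc hp, rfl⟩
    · rintro ⟨c, b, hc, hb, rfl⟩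
      refine ⟨hmemPa hb.1 hc, ?_⟩
      intro q hq
      refine (hwa.2 q hq).trans ?_
      rw [hCa hf ha'.le one_ne_zero, hCa hf hb.1.le hc]
      exact hb.2 a ha'
  refine ⟨⟨hKc, hKne, hKD, hHC⟩, disc, ?_⟩
  intro k hk
  have hd : DifferentiableOn ℂ (fun z : ℂ => z ^ k) (ball 0 1) := by fun_prop
  have hnot : ¬ ∃ c : ℂ, IsScaledBlaschke (m + 1) (fun z => z ^ k) c := by
    rintro ⟨c, s, h1, h2, h3⟩
    exact pow_not_scaled hk ⟨c, s, h1, h2, h3⟩
  have hset : maxPoints (m + 1) r (fun z => z ^ k) = sphere 0 r := by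
    ext a
    constructor
    · intro ha
      exact mem_sphere_zero_iff_norm.mpr ha.1
    · intro ha
      have ha' : ‖a‖ = r := mem_sphere_zero_iff_norm.mp ha
      refine ⟨ha', ?_⟩
      intro b hb
      have hval : ∀ a : ℂ, ‖funCalc (fun z => z ^ k) (Top (m + 1) a)‖ = ‖(Uop (m + 1) a) ^ k‖ := fun a =>
        congrArg norm (fc_pow k (Uop (m + 1) a))
      rw [hval, hval, Uop_pow_circle hr0 b hb k, Uop_pow_circle hr0 a ha' k]
  refine ⟨⟨(r : ℂ), ?_⟩, ?_⟩
  · rw [mem_sphere_zero_iff_norm, norm_real, Real.norm_eq_abs, abs_of_pos hr0]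
  · intro p
    rw [(disc _ hd hnot).2 p, hset]

end Pool.Agent.Results.MP_a1a577_an.AllWorst
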